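import Mathlib
import Pool.Agent.H752R3.Recursion

/-!
Under CH there is a Fubini sum, over a selective ultrafilter, of selective ultrafilters which is a
q-point and not selective.  Hence the assertion of Q1 (a q-point Tukey below a finite Fubini
iterate of p-points is selective) is not provable in ZFC.
-/

set_option autoImplicit false

namespace Pool.Agent.Results.MP_21276c_lc.NonSelectiveQPoint

open Set Cardinal

/-- Non-principal ultrafilters. -/
def NonPrincipal (U : Ultrafilter ℕ) : Prop := ∀ n : ℕ, ({n} : Set ℕ) ∉ U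

/-- p-points: every function is constant or finite-to-one on a set of the ultrafilter. -/
def PPoint (U : Ultrafilter ℕ) : Prop :=
  NonPrincipal U ∧ ∀ f : ℕ → ℕ,
    (∃ X ∈ U, ∃ c : ℕ, ∀ x ∈ X, f x = c) ∨ ∃ X ∈ U, ∀ m : ℕ, {x | x ∈ X ∧ f x = m}.Finite

/-- q-points: every finite-to-one function is injective on a set of the ultrafilter. -/
def QPoint (U : Ultrafilter ℕ) : Prop :=
  NonPrincipal U ∧ ∀ f : ℕ → ℕ, (∀ m : ℕ, {n : ℕ | f n = m}.Finite) → ∃ X ∈ U, Set.InjOn f X

/-- Selective ultrafilters: every function is constant or injective on a set of the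
ultrafilter. -/
def Selective (U : Ultrafilter ℕ) : Prop :=
  NonPrincipal U ∧ ∀ f : ℕ → ℕ,
    (∃ X ∈ U, ∃ c : ℕ, ∀ x ∈ X, f x = c) ∨ ∃ X ∈ U, Set.InjOn f X

/-- The Fubini limit `lim_{n → W} Y n`, an ultrafilter on `ℕ × ℕ` transported to `ℕ` by the
pairing bijection: `A` belongs to it iff `{n : {x : (n, x) ∈ A} ∈ Y n} ∈ W`
(see `mem_fubini`). -/
def fubini (W : Ultrafilter ℕ) (Y : ℕ → Ultrafilter ℕ) : Ultrafilter ℕ :=
  W.bind (fun n => (Y n).map (Nat.pair n))

theorem mem_fubini {W : Ultrafilter ℕ} {Y : ℕ → Ultrafilter ℕ} {A : Set ℕ} :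
    A ∈ fubini W Y ↔ {n | {x | Nat.pair n x ∈ A} ∈ Y n} ∈ W := Iff.rfl

/-- `Iterate k U`: `U` is a Fubini iterate of p-points of depth at most `k`. -/
inductive Iterate : ℕ → Ultrafilter ℕ → Prop
  | base (W : Ultrafilter ℕ) : PPoint W → Iterate 1 W
  | up (k : ℕ) (U : Ultrafilter ℕ) : Iterate k U → Iterate (k + 1) U
  | lim (k : ℕ) (W : Ultrafilter ℕ) (Y : ℕ → Ultrafilter ℕ) : PPoint W →
      (∀ n, Iterate k (Y n)) → Iterate (k + 1) (fubini W Y)

/-- Tukey reducibility `V ≤_T U`. -/
def TukeyLE (V U : Ultrafilter ℕ) : Prop :=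
  ∃ g : Set ℕ → Set ℕ, (∀ A ∈ U, g A ∈ V) ∧ (∀ A ∈ U, ∀ B ∈ U, A ⊆ B → g A ⊆ g B) ∧
    ∀ B ∈ V, ∃ A ∈ U, g A ⊆ B

/-! ### The poset -/

/-- Sequences of infinite sets. -/
abbrev P : Type := {A : ℕ → Set ℕ // ∀ n, (A n).Infinite}

/-- Coordinatewise almost inclusion. -/
def le (A B : P) : Prop := ∀ n, (A.1 n \ B.1 n).Finite

theorem le_refl (A : P) : le A A := fun n => by simp

theorem le_trans (A B C : P) (h : le A B) (h' : le B C) : le A C := fun n =>
  ((h n).union (h' n)).subset (by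
    intro x hx
    by_cases hB : x ∈ B.1 n
    · exact Or.inr ⟨hB, hx.2⟩
    · exact Or.inl ⟨hx.1, hB⟩)

/-- Pseudo-intersections. -/
theorem exists_pseudo (A : ℕ → Set ℕ) (hA : ∀ n, (A n).Infinite)
    (hdec : ∀ n, (A (n + 1) \ A n).Finite) : ∃ B : Set ℕ, B.Infinite ∧ ∀ n, (B \ A n).Finite := by
  classical
  have hle : ∀ n k, (A (n + k) \ A n).Finite := by
    intro n k
    induction k with
    | zero => simp
    | succ k ih =>
      refine ((hdec (n + k)).union ih).subset ?_
      intro x hx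
      by_cases h : x ∈ A (n + k)
      · exact Or.inr ⟨h, hx.2⟩
      · exact Or.inl ⟨hx.1, h⟩
  have hinf : ∀ n, (⋂ i ∈ Finset.range (n + 1), A i).Infinite := by
    intro n
    have : (A n \ ⋃ i ∈ Finset.range (n + 1), (A n \ A i)).Infinite := by
      refine (hA n).sdiff (Set.Finite.biUnion (Finset.finite_toSet _) ?_)
      intro i hi
      have hi' : i ≤ n := by
        have := Finset.mem_coe.1 hi
        rw [Finset.mem_range] at this
        omega
      obtain ⟨k, rfl⟩ := Nat.exists_eq_add_of_le hi'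
      exact hle i k
    refine this.mono ?_
    intro x hx
    simp only [mem_sdiff, mem_iUnion, not_exists, not_and, not_not] at hx
    simp only [mem_iInter]
    intro i hi
    exact hx.2 i hi hx.1
  have hex : ∀ n m : ℕ, ∃ x, m < x ∧ x ∈ ⋂ i ∈ Finset.range (n + 1), A i := by
    intro n m
    obtain ⟨x, hx, hmx⟩ := (hinf n).exists_gt m
    exact ⟨x, hmx, hx⟩
  choose e he1 he2 using hex
  let b : ℕ → ℕ := fun n => Nat.rec (e 0 0) (fun k x => e (k + 1) x) n
  have hb : ∀ n, b (n + 1) = e (n + 1) (b n) := fun n => rfl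
  have hmono : StrictMono b := strictMono_nat_of_lt_succ (fun n => by rw [hb]; exact he1 _ _)
  have hmem : ∀ n, b n ∈ ⋂ i ∈ Finset.range (n + 1), A i := by
    intro n
    cases n with
    | zero => exact he2 0 0
    | succ n => rw [hb]; exact he2 _ _
  refine ⟨range b, infinite_range_of_injective hmono.injective, ?_⟩
  intro n
  refine ((Finset.finite_toSet (Finset.range n)).image b).subset ?_
  rintro x ⟨⟨k, rfl⟩, hk⟩
  by_contra hcon
  have hkn : n ≤ k := by
    by_contra h
    exact hcon ⟨k, by simpa using h, rfl⟩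
  have := hmem k
  simp only [mem_iInter] at this
  exact hk (this n (by simp; omega))

theorem closed (p : ℕ → P) (h : ∀ n, le (p (n + 1)) (p n)) : ∃ q, ∀ n, le q (p n) := by
  have : ∀ m, ∃ B : Set ℕ, B.Infinite ∧ ∀ n, (B \ (p n).1 m).Finite := fun m =>
    exists_pseudo (fun n => (p n).1 m) (fun n => (p n).2 m) (fun n => h n m)
  choose B hB hB' using this
  exact ⟨⟨B, hB⟩, fun n m => hB' m n⟩

/-! ### The tasks -/

/-- Every function on an infinite set is constant or injective on an infinite subset. -/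
theorem exists_const_or_inj {S : Set ℕ} (hS : S.Infinite) (f : ℕ → ℕ) :
    ∃ T ⊆ S, T.Infinite ∧ ((∃ c, ∀ x ∈ T, f x = c) ∨ InjOn f T) := by
  by_cases h : (f '' S).Finite
  · have : ∃ c ∈ f '' S, (S ∩ f ⁻¹' {c}).Infinite := by
      by_contra hcon
      push Not at hcon
      refine hS ((h.biUnion (t := fun c => S ∩ f ⁻¹' {c}) hcon).subset ?_)
      intro x hx
      exact mem_biUnion (mem_image_of_mem f hx) ⟨hx, rfl⟩
    obtain ⟨c, -, hc⟩ := this
    exact ⟨_, inter_subset_left, hc, Or.inl ⟨c, fun x hx => hx.2⟩⟩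
  · obtain ⟨T, hTS, hbij⟩ := exists_subset_bijOn S f
    refine ⟨T, hTS, ?_, Or.inr hbij.injOn⟩
    intro hT
    exact h (hbij.image_eq ▸ hT.image f)

/-- Columns `T n ⊆ S n` such that a function which is finite-to-one on the columns is injective
on the union of the columns. -/
theorem exists_columns (S : ℕ → Set ℕ) (hS : ∀ n, (S n).Infinite) (f : ℕ → ℕ → ℕ)
    (hf : ∀ n m, {x | f n x = m}.Finite) :
    ∃ T : ℕ → Set ℕ, (∀ n, T n ⊆ S n) ∧ (∀ n, (T n).Infinite) ∧
      ∀ n x n' x', x ∈ T n → x' ∈ T n' → f n x = f n' x' → n = n' ∧ x = x' := by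
  classical
  -- choose points one at a time, the `k`-th one in column `(Nat.unpair k).1`
  have hex : ∀ (n : ℕ) (F : Finset ℕ), ∃ x, x ∈ S n ∧ f n x ∉ F := by
    intro n F
    by_contra hcon
    push Not at hcon
    refine hS n ((Set.Finite.biUnion (Finset.finite_toSet F) (fun m _ => hf n m)).subset ?_)
    intro x hx
    exact mem_biUnion (Finset.mem_coe.2 (hcon x hx)) rfl
  choose e he1 he2 using hex
  -- `g k` is the list of values used before stage `k`
  let col : ℕ → ℕ := fun k => (Nat.unpair k).1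
  let g : ℕ → Finset ℕ := fun k => Nat.rec ∅ (fun j F => insert (f (col j) (e (col j) F)) F) k
  have hg0 : g 0 = ∅ := rfl
  have hgs : ∀ k, g (k + 1) = insert (f (col k) (e (col k) (g k))) (g k) := fun k => rfl
  let a : ℕ → ℕ := fun k => e (col k) (g k)
  have ha1 : ∀ k, a k ∈ S (col k) := fun k => he1 _ _
  have ha2 : ∀ k, f (col k) (a k) ∉ g k := fun k => he2 _ _
  have hmono : Monotone g := monotone_nat_of_le_succ (fun k => by
    rw [hgs]; exact Finset.subset_insert _ _)
  have ha3 : ∀ j k, j < k → f (col j) (a j) ∈ g k := by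
    intro j k hjk
    have : f (col j) (a j) ∈ g (j + 1) := by
      rw [hgs]; exact Finset.mem_insert_self _ _
    exact hmono (Nat.succ_le_of_lt hjk) this
  have hinj : ∀ j k, f (col j) (a j) = f (col k) (a k) → j = k := by
    intro j k hjk
    rcases lt_trichotomy j k with h | h | h
    · exact absurd (hjk ▸ ha3 j k h) (ha2 k)
    · exact h
    · exact absurd (hjk ▸ ha3 k j h) (ha2 j)
  refine ⟨fun n => {x | ∃ k, col k = n ∧ a k = x}, ?_, ?_, ?_⟩
  · rintro n x ⟨k, rfl, rfl⟩
    exact ha1 k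
  · intro n
    have hinj' : Function.Injective (fun j : ℕ => a (Nat.pair n j)) := by
      intro j j' hjj
      have h1 : Nat.pair n j = Nat.pair n j' := by
        refine hinj _ _ ?_
        have e1 : col (Nat.pair n j) = n := by simp [col]
        have e2 : col (Nat.pair n j') = n := by simp [col]
        rw [e1, e2]
        exact congrArg (f n) hjj
      have := Nat.pair_eq_pair.1 h1
      exact this.2
    refine (infinite_range_of_injective hinj').mono ?_
    rintro x ⟨j, rfl⟩
    exact ⟨Nat.pair n j, by simp [col], rfl⟩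
  · rintro n x n' x' ⟨k, rfl, rfl⟩ ⟨k', rfl, rfl⟩ h
    have := hinj k k' h
    subst this
    exact ⟨rfl, rfl⟩

/-- The tasks: a set `X` and a column, a function and a column, or a function of two variables. -/
abbrev Task : Type := (ℕ × Set ℕ) ⊕ (ℕ × (ℕ → ℕ)) ⊕ (ℕ → ℕ → ℕ)

/-- `A` does the task. -/
def Does : Task → P → Prop
  | Sum.inl (n, X), A => A.1 n ⊆ X ∨ A.1 n ⊆ Xᶜ
  | Sum.inr (Sum.inl (n, f)), A => (∃ c, ∀ x ∈ A.1 n, f x = c) ∨ InjOn f (A.1 n)
  | Sum.inr (Sum.inr f), A => (∀ n m, {x | f n x = m}.Finite) →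
      ∀ n x n' x', x ∈ A.1 n → x' ∈ A.1 n' → f n x = f n' x' → n = n' ∧ x = x'

theorem does (t : Task) (A : P) : ∃ B, le B A ∧ Does t B := by
  classical
  -- replacing one column
  have hrep : ∀ (n : ℕ) (T : Set ℕ), T ⊆ A.1 n → T.Infinite →
      ∃ B : P, le B A ∧ B.1 n = T := by
    intro n T hT hTi
    refine ⟨⟨Function.update A.1 n T, ?_⟩, ?_, by simp⟩
    · intro m
      by_cases h : m = n
      · subst h; simpa using hTi
      · rw [Function.update_of_ne h]; exact A.2 m
    · intro m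
      by_cases h : m = n
      · subst h
        have : Function.update A.1 m T m \ A.1 m = ∅ := by
          rw [Function.update_self]; exact sdiff_eq_empty.2 hT
        change (Function.update A.1 m T m \ A.1 m).Finite
        rw [this]; exact finite_empty
      · change (Function.update A.1 n T m \ A.1 m).Finite
        rw [Function.update_of_ne h]; simp
  rcases t with ⟨n, X⟩ | ⟨n, f⟩ | f
  · have hor : (A.1 n ∩ X).Infinite ∨ (A.1 n ∩ Xᶜ).Infinite := by
      have := A.2 n
      rw [← inter_union_compl (A.1 n) X] at this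
      exact infinite_union.1 this
    rcases hor with h | h
    · obtain ⟨B, hB, hB'⟩ := hrep n _ inter_subset_left h
      exact ⟨B, hB, Or.inl (hB' ▸ inter_subset_right)⟩
    · obtain ⟨B, hB, hB'⟩ := hrep n _ inter_subset_left h
      exact ⟨B, hB, Or.inr (hB' ▸ inter_subset_right)⟩
  · obtain ⟨T, hT, hTi, h⟩ := exists_const_or_inj (A.2 n) f
    obtain ⟨B, hB, hB'⟩ := hrep n T hT hTi
    refine ⟨B, hB, ?_⟩
    change (∃ c, ∀ x ∈ B.1 n, f x = c) ∨ InjOn f (B.1 n)
    rw [hB']
    exact h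
  · by_cases hf : ∀ n m, {x | f n x = m}.Finite
    · obtain ⟨T, hT, hTi, h⟩ := exists_columns A.1 A.2 f hf
      refine ⟨⟨T, hTi⟩, fun n => ?_, fun _ => h⟩
      have : T n \ A.1 n = ∅ := sdiff_eq_empty.2 (hT n)
      change (T n \ A.1 n).Finite
      rw [this]; exact finite_empty
    · exact ⟨A, le_refl A, fun h => absurd h hf⟩

theorem mk_task : #Task ≤ 𝔠 := by
  have h1 : #(Set ℕ) = 𝔠 := by simp
  have h2 : #(ℕ → ℕ) = 𝔠 := by simp
  have h3 : #(ℕ → ℕ → ℕ) = 𝔠 := by
    have : #(ℕ → ℕ → ℕ) = #(ℕ → ℕ) ^ #ℕ := by simp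
    rw [this, h2]; simp
  simp only [Task, mk_sum, mk_prod, lift_id, h1, h2, h3, mk_nat, aleph0_mul_continuum,
    continuum_add_self, _root_.le_refl]

/-- Under CH there are ultrafilters `Y n` (`n ∈ ℕ`), all selective, such that every function
of two variables which is finite-to-one on all columns is injective on a set with all columns
large. -/
theorem exists_family (CH : (ℵ₁ : Cardinal.{0}) = 𝔠) : ∃ Y : ℕ → Ultrafilter ℕ,
    (∀ n, Selective (Y n)) ∧
    ∀ f : ℕ → ℕ → ℕ, (∀ n m, {x | f n x = m}.Finite) → ∃ T : ℕ → Set ℕ, (∀ n, T n ∈ Y n) ∧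
      ∀ n x n' x', x ∈ T n → x' ∈ T n' → f n x = f n' x' → n = n' ∧ x = x' := by
  classical
  haveI : Nonempty P := ⟨⟨fun _ => univ, fun _ => infinite_univ⟩⟩
  obtain ⟨t, ht⟩ := Pool.Agent.H752R3.exists_surjection_omega1 CH mk_task
  obtain ⟨C, hC, hdoes⟩ := Pool.Agent.H752R3.sigma_closed_recursion
    Pool.Agent.H752R3.countable_Iio_omega1 le le_refl le_trans closed
    (fun a p => Does (t a) p) (fun a p => does (t a) p)
  -- the ultrafilters
  let G : ℕ → Filter ℕ := fun n =>
    { sets := {X | ∃ a, ((C a).1 n \ X).Finite}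
      univ_sets := ⟨Classical.choose (ht (Sum.inl (0, ∅))), by simp⟩
      sets_of_superset := by
        rintro X Y ⟨a, ha⟩ hXY
        exact ⟨a, ha.subset (sdiff_subset_sdiff_right hXY)⟩
      inter_sets := by
        rintro X Y ⟨a, ha⟩ ⟨b, hb⟩
        refine ⟨max a b, ?_⟩
        have h1 := hC a (max a b) (le_max_left _ _) n
        have h2 := hC b (max a b) (le_max_right _ _) n
        refine (((h1.union ha).union h2).union hb).subset ?_
        intro x hx
        by_cases hxa : x ∈ (C a).1 n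
        · by_cases hxX : x ∈ X
          · by_cases hxb : x ∈ (C b).1 n
            · exact Or.inr ⟨hxb, fun hxY => hx.2 ⟨hxX, hxY⟩⟩
            · exact Or.inl (Or.inr ⟨hx.1, hxb⟩)
          · exact Or.inl (Or.inl (Or.inr ⟨hxa, hxX⟩))
        · exact Or.inl (Or.inl (Or.inl ⟨hx.1, hxa⟩)) }
  have hGmem : ∀ n X, X ∈ G n ↔ ∃ a, ((C a).1 n \ X).Finite := fun n X => Iff.rfl
  have hGinf : ∀ n X, X ∈ G n → X.Infinite := by
    rintro n X ⟨a, ha⟩ hX
    refine (C a).2 n ((ha.union hX).subset ?_)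
    intro x hx
    by_cases h : x ∈ X
    · exact Or.inr h
    · exact Or.inl ⟨hx, h⟩
  have hCG : ∀ n a, (C a).1 n ∈ G n := fun n a => ⟨a, by simp⟩
  have hult : ∀ n, ∃ U : Ultrafilter ℕ, (U : Filter ℕ) = G n := by
    intro n
    refine ⟨Ultrafilter.ofComplNotMemIff (G n) ?_, ?_⟩
    · intro X
      constructor
      · intro h
        obtain ⟨a, ha⟩ := ht (Sum.inl (n, X))
        have h1 := hdoes a
        rw [ha] at h1
        rcases h1 with h1 | h1
        · exact Filter.mem_of_superset (hCG n a) h1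
        · exact absurd (Filter.mem_of_superset (hCG n a) h1) h
      · intro h h'
        have := hGinf n _ (Filter.inter_mem h h')
        simp at this
    · rfl
  choose Y hY using hult
  have hYmem : ∀ n X, X ∈ Y n ↔ X ∈ G n := by
    intro n X
    rw [← hY n]; rfl
  have hnp : ∀ n, NonPrincipal (Y n) := by
    intro n m hm
    exact hGinf n _ ((hYmem n _).1 hm) (finite_singleton m)
  refine ⟨Y, fun n => ⟨hnp n, ?_⟩, ?_⟩
  · intro f
    obtain ⟨a, ha⟩ := ht (Sum.inr (Sum.inl (n, f)))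
    have h1 := hdoes a
    rw [ha] at h1
    rcases h1 with ⟨c, hc⟩ | h1
    · exact Or.inl ⟨_, (hYmem n _).2 (hCG n a), c, hc⟩
    · exact Or.inr ⟨_, (hYmem n _).2 (hCG n a), h1⟩
  · intro f hf
    obtain ⟨a, ha⟩ := ht (Sum.inr (Sum.inr f))
    have h1 := hdoes a
    rw [ha] at h1
    exact ⟨(C a).1, fun n => (hYmem n _).2 (hCG n a), h1 hf⟩

theorem Selective.pPoint {U : Ultrafilter ℕ} (h : Selective U) : PPoint U := by
  refine ⟨h.1, fun f => ?_⟩
  rcases h.2 f with h1 | ⟨X, hX, h1⟩
  · exact Or.inl h1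
  · refine Or.inr ⟨X, hX, fun m => ?_⟩
    refine Set.Subsingleton.finite ?_
    rintro x ⟨hx, hx'⟩ y ⟨hy, hy'⟩
    exact h1 hx hy (hx'.trans hy'.symm)

/-- Under CH there are selective ultrafilters `W` and `Y n` such that the Fubini limit
`lim_{n → W} Y n`, which is a Fubini iterate of p-points of depth at most `2`, is a q-point (and it
is Tukey reducible to itself) but it is not selective. -/
theorem result (CH : (ℵ₁ : Cardinal.{0}) = 𝔠) :
    ∃ U V W : Ultrafilter ℕ, ∃ Y : ℕ → Ultrafilter ℕ,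
      Selective W ∧ (∀ n, Selective (Y n)) ∧ U = fubini W Y ∧ V = U ∧
      Iterate 2 U ∧ QPoint V ∧ TukeyLE V U ∧ ¬ Selective V := by
  classical
  obtain ⟨Y, hY, hinj⟩ := exists_family CH
  have hnp : NonPrincipal (fubini (Y 0) Y) := by
    intro m hm
    rw [mem_fubini] at hm
    refine (hY 0).1 (Nat.unpair m).1 (Filter.mem_of_superset hm ?_)
    intro n hn
    simp only [mem_setOf_eq] at hn
    obtain ⟨x, hx⟩ := Ultrafilter.nonempty_of_mem hn
    have hx' : Nat.pair n x = m := by simpa using hx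
    simp only [mem_singleton_iff]
    rw [← hx']; simp
  refine ⟨fubini (Y 0) Y, fubini (Y 0) Y, Y 0, Y, hY 0, hY, rfl, rfl, ?_, ⟨hnp, ?_⟩, ?_, ?_⟩
  · exact Iterate.lim 1 (Y 0) Y (hY 0).pPoint (fun n => Iterate.base _ (hY n).pPoint)
  · intro f hf
    obtain ⟨T, hT, hTinj⟩ := hinj (fun n x => f (Nat.pair n x)) (by
      intro n m
      refine Set.Finite.of_finite_image (f := Nat.pair n) ((hf m).subset ?_) ?_
      · rintro y ⟨x, hx, rfl⟩
        exact hx
      · intro x _ y _ hxy
        exact (Nat.pair_eq_pair.1 hxy).2)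
    refine ⟨{k | (Nat.unpair k).2 ∈ T (Nat.unpair k).1}, ?_, ?_⟩
    · rw [mem_fubini]
      refine Filter.mem_of_superset Filter.univ_mem ?_
      intro n _
      simp only [mem_setOf_eq, Nat.unpair_pair]
      exact hT n
    · intro k hk k' hk' hkk
      have h1 := hTinj _ _ _ _ hk hk' (by simpa using hkk)
      rw [← Nat.pair_unpair k, ← Nat.pair_unpair k', h1.1, h1.2]
  · exact ⟨id, fun A hA => hA, fun A _ B _ h => h, fun B hB => ⟨B, hB, subset_rfl⟩⟩
  · rintro ⟨-, h⟩
    rcases h (fun k => (Nat.unpair k).1) with ⟨X, hX, c, hc⟩ | ⟨X, hX, hX'⟩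
    · rw [mem_fubini] at hX
      refine (hY 0).1 c (Filter.mem_of_superset hX ?_)
      intro n hn
      obtain ⟨x, hx⟩ := Ultrafilter.nonempty_of_mem hn
      have := hc _ hx
      simpa using this
    · rw [mem_fubini] at hX
      obtain ⟨n, hn⟩ := Ultrafilter.nonempty_of_mem hX
      have hsub : {x | Nat.pair n x ∈ X}.Subsingleton := by
        intro x hx y hy
        have := hX' hx hy (by simp)
        exact (Nat.pair_eq_pair.1 this).2
      obtain ⟨x, hx⟩ := Ultrafilter.nonempty_of_mem hn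
      refine (hY n).1 x (Filter.mem_of_superset hn ?_)
      intro y hy
      exact hsub hy hx

end Pool.Agent.Results.MP_21276c_lc.NonSelectiveQPoint
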